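import Pool.Agent.helper45.Brauer.SA4
import Pool.Agent.helper45.Brauer.SB

set_option autoImplicit false

namespace Pool.Agent.Results.MP_58d2c7_al.Disproof

open Pool.Agent.helper45.Brauer

/-- The number of conjugacy classes of `p`-regular elements of `G`, i.e. of conjugacy classes
all of whose elements have order not divisible by `p`. By Brauer's theorem this is the number
`ℓ_p(G)` of irreducible `p`-Brauer characters of `G`. -/
noncomputable def numRegularClasses (p : ℕ) (G : Type) [Group G] : ℕ :=
  Nat.card {c : ConjClasses G // ∀ g : G, ConjClasses.mk g = c → ¬ p ∣ orderOf g}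

lemma numRegularClasses_eq (p : ℕ) (G : Type) [Group G] :
    numRegularClasses p G = regClasses p G := by
  unfold numRegularClasses regClasses
  apply Nat.card_congr
  refine Equiv.subtypeEquiv (Equiv.refl _) ?_
  intro c
  simp only [Equiv.refl_apply]
  constructor
  · intro h
    obtain ⟨g, hg⟩ := ConjClasses.exists_rep c
    exact ⟨g, hg, h g hg⟩
  · rintro ⟨g, hg, hp⟩ g' hg'
    have hconj : IsConj g g' := by
      rw [← ConjClasses.mk_eq_mk_iff_isConj, hg, hg']
    obtain ⟨c, hc⟩ := isConj_iff.1 hconj
    have : orderOf g' = orderOf g := by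
      rw [← hc]
      have := orderOf_injective (MulAut.conj c).toMonoidHom (MulAut.conj c).injective g
      simpa using this
    rwa [this]

lemma classes_sub (H : Subgroup (FP par)) (h3 : ¬ 3 ∣ Nat.card H) :
    Nat.card (ConjClasses H) ≤ 359 := by
  have hinj : Function.Injective (FP par).subtype := Subtype.val_injective
  have hle : H.map (FP par).subtype ≤ FP par := by
    rintro _ ⟨x, _, rfl⟩
    exact x.2
  have hcard : Nat.card (H.map (FP par).subtype : Subgroup (Heis × S)) = Nat.card H :=
    (Nat.card_congr (H.equivMapOfInjective _ hinj).toEquiv).symm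
  have h3' : ¬ 3 ∣ Nat.card (sndMap (H.map (FP par).subtype)) := by
    intro h
    apply h3
    rw [← hcard, card_eq_mul]
    exact h.mul_left _
  have h1 := classes_le par (H.map (FP par).subtype) hle (SA _ h3')
  have e1 : comm (H.map (FP par).subtype) =
      Nat.card (ConjClasses (H.map (FP par).subtype : Subgroup (Heis × S))) *
        Nat.card (H.map (FP par).subtype : Subgroup (Heis × S)) :=
    card_comm_eq_card_conjClasses_mul_card _
  have e2 : comm H = Nat.card (ConjClasses H) * Nat.card H :=
    card_comm_eq_card_conjClasses_mul_card _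
  rw [comm_map _ hinj, e2, hcard] at e1
  have hpos : 0 < Nat.card H := Nat.card_pos
  have e3 := Nat.eq_of_mul_eq_mul_right hpos e1
  rw [e3]
  exact h1

/-- There is a finite group `G` of order 92160 with at least 362 classes of 3-regular elements
all of whose subgroups of order prime to 3 have at most 359 conjugacy classes. -/
theorem result :
    ∃ (G : Type) (_ : Group G) (_ : Finite G),
      Nat.card G = 92160 ∧
      362 ≤ numRegularClasses 3 G ∧
      ∀ H : Subgroup G, ¬ 3 ∣ Nat.card H → Nat.card (ConjClasses H) ≤ 359 := by
  refine ⟨FP par, inferInstance, inferInstance, ?_, ?_, classes_sub⟩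
  · have h := card_over par (⊤ : Subgroup S)
    rw [Subgroup.card_top, card_S] at h
    have h2 : Nat.card (FP par) =
        Nat.card {x : Heis × S // Heis.par x.1 = par x.2 ∧ x.2 ∈ (⊤ : Subgroup S)} := by
      apply Nat.card_congr
      refine Equiv.subtypeEquiv (Equiv.refl _) ?_
      intro x
      simp [mem_FP]
    rw [h2, h]
  · rw [numRegularClasses_eq]
    exact reg_FP par par_surjective reg_S reg_ker

end Pool.Agent.Results.MP_58d2c7_al.Disproof
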